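import Pool.Agent.W96.CL.Stm
set_option autoImplicit false

/-! Parts S_layer and S_special of the project CL. -/

namespace W96CL

/-- `[z, z', z, z', ...]` (`m` pairs) -/
def prs (z z' : ℂ) : ℕ → List ℂ
  | 0 => []
  | (m + 1) => z :: z' :: prs z z' m

theorem prs_length (z z' : ℂ) (m : ℕ) : (prs z z' m).length = 2 * m := by
  induction m with
  | zero => rfl
  | succ m ih => simp only [prs, List.length_cons, ih]; ring

theorem alt_eq_prs (z : ℂ) (n : ℕ) : alt z n = prs z z⁻¹ n := by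
  induction n with
  | zero => rfl
  | succ n ih => simp only [alt, prs, ih]

theorem cons_prs (z z' : ℂ) (m : ℕ) : z :: (prs z' z m ++ [z']) = prs z z' (m + 1) := by
  induction m with
  | zero => rfl
  | succ m ih =>
    show z :: ((z' :: z :: prs z' z m) ++ [z']) = z :: z' :: prs z z' (m + 1)
    rw [← ih]
    rfl

theorem swapLay (hs : S_swap) (A : Type) [Ring A] [Algebra ℂ A] (e : ℕ → A) (N : ℕ) (h : TL e N)
    (x : ℂ) (i : ℕ) (Q : List ℂ) (z z' : ℂ) (hz : z ≠ 0) (hz' : z' ≠ 0) :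
    ∀ (m : ℕ) (P : List ℂ), i + P.length + 2 * m + Q.length ≤ N →
      Lay e (uu * z' / z) (i + P.length) m * DD e x i (P ++ (prs z z' m ++ Q)) =
        DD e x i (P ++ (prs z' z m ++ Q)) * Lay e (uu * z' / z) (i + P.length) m := by
  intro m
  induction m with
  | zero =>
    intro P _
    simp only [Lay, prs, one_mul, mul_one]
  | succ m ih =>
    intro P hP
    have h1 := ih (P ++ [z, z']) (by simp only [List.length_append, List.length_cons, List.length_nil]; omega)
    have h2 := (hs A e N h x i P (prs z' z m ++ Q) z z' hz hz').2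
      (by simp only [List.length_append, prs_length]; omega)
    have e1 : (P ++ [z, z']) ++ (prs z z' m ++ Q) = P ++ (prs z z' (m + 1) ++ Q) := by
      simp [prs]
    have e2 : (P ++ [z, z']) ++ (prs z' z m ++ Q) = P ++ z :: z' :: (prs z' z m ++ Q) := by
      simp
    have e3 : P ++ z' :: z :: (prs z' z m ++ Q) = P ++ (prs z' z (m + 1) ++ Q) := by
      simp [prs]
    have e4 : i + (P ++ [z, z']).length = i + P.length + 2 := by
      simp only [List.length_append, List.length_cons, List.length_nil]; omega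
    rw [e1, e2, e4] at h1
    rw [e3] at h2
    show XX e (i + P.length) (uu * z' / z) * Lay e (uu * z' / z) (i + P.length + 2) m * _ =
      _ * (XX e (i + P.length) (uu * z' / z) * Lay e (uu * z' / z) (i + P.length + 2) m)
    rw [mul_assoc, h1, ← mul_assoc, h2, mul_assoc]

theorem cl_layer (hs : S_swap) (hf : S_flip) : S_layer := by
  intro A _ _ e n hn h x z hz
  have hzi : z⁻¹ ≠ 0 := inv_ne_zero hz
  have hy : uu * z⁻¹ / z = uu / z ^ 2 := by
    rw [div_eq_div_iff hz (pow_ne_zero 2 hz)]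
    field_simp
  obtain ⟨m, rfl⟩ : ∃ m, n = m + 1 := ⟨n - 1, by omega⟩
  have h1 := swapLay hs A e _ h x 0 [] z z⁻¹ hz hzi (m + 1) [] (by simp)
  have h2 := swapLay hs A e _ h x 0 [z] z z⁻¹ hz hzi m [z⁻¹] (by simp; omega)
  simp only [List.nil_append, List.append_nil, List.length_nil, add_zero] at h1
  simp only [List.cons_append, List.nil_append, List.length_cons, List.length_nil, zero_add] at h2
  rw [hy] at h1 h2
  have e1 : z⁻¹ :: (prs z z⁻¹ m ++ [z]) = prs z⁻¹ z (m + 1) := cons_prs _ _ _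
  have e2 : DD e x 0 (z⁻¹ :: (prs z⁻¹ z m ++ [z])) = DD e x 0 (alt z (m + 1)) := by
    rw [(hf A e x 0 _ z hz).1]
    have h3 := (hf A e x 0 (z :: prs z⁻¹ z m) z hz).2
    simp only [List.cons_append] at h3
    rw [← h3, cons_prs, alt_eq_prs]
  rw [e1, e2] at h2
  rw [← alt_eq_prs] at h1
  rw [Nat.add_sub_cancel]
  show Lay e (uu / z ^ 2) 1 m * Lay e (uu / z ^ 2) 0 (m + 1) * DD e x 0 (alt z (m + 1)) =
    DD e x 0 (alt z (m + 1)) * (Lay e (uu / z ^ 2) 1 m * Lay e (uu / z ^ 2) 0 (m + 1))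
  rw [mul_assoc, h1, ← mul_assoc, h2, mul_assoc]

theorem uu_sq : uu ^ 2 = uu - 1 := by
  have h3 : Real.sqrt 3 * Real.sqrt 3 = 3 := Real.mul_self_sqrt (by norm_num)
  apply Complex.ext
  · simp [uu, sq]; nlinarith
  · simp [uu, sq]; ring

theorem wT_uu : wT uu = 0 := by
  unfold wT
  linear_combination uu_sq

theorem wF_uu : wF uu = 1 + uu := by
  unfold wF
  linear_combination -uu_sq

theorem XX_uu (A : Type) [Ring A] [Algebra ℂ A] (e : ℕ → A) (i : ℕ) :
    XX e i uu = (1 + uu) • (1 : A) := by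
  unfold XX
  rw [wT_uu, wF_uu, zero_smul, add_zero]

theorem XX_comm (A : Type) [Ring A] [Algebra ℂ A] (e : ℕ → A) (N : ℕ) (h : TL e N) (i j : ℕ)
    (a b : ℂ) (h1 : i + 1 < j) (h2 : j + 1 < N) : Commute (XX e i a) (XX e j b) := by
  have h3 : Commute (e i) (e j) := h.cm i j h1 h2
  unfold XX
  refine Commute.add_left (Commute.smul_left (Commute.one_left _) _) (Commute.smul_left ?_ _)
  exact Commute.add_right (Commute.smul_right (Commute.one_right _) _) (Commute.smul_right h3 _)

theorem XX_Lay (A : Type) [Ring A] [Algebra ℂ A] (e : ℕ → A) (N : ℕ) (h : TL e N) (i : ℕ)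
    (a y : ℂ) : ∀ (m j : ℕ), i + 1 < j → j + 2 * m < N + 1 → Commute (XX e i a) (Lay e y j m) := by
  intro m
  induction m with
  | zero => intro j _ _; exact Commute.one_right _
  | succ m ih =>
    intro j h1 h2
    exact Commute.mul_right (XX_comm A e N h i j a y h1 (by omega))
      (ih (j + 2) (by omega) (by omega))

theorem BB_special (A : Type) [Ring A] [Algebra ℂ A] (e : ℕ → A) (N : ℕ) (h : TL e N)
    (z : ℂ) (hz : z ≠ 0) : ∀ (m i : ℕ), i + 2 * m + 1 < N →
      BB e (uu / z) i (z⁻¹ :: alt z m) =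
        ((1 + uu) ^ (2 * m + 1)) • (Lay e (uu / z ^ 2) (i + 1) m * Lay e (uu / z ^ 2) i (m + 1)) := by
  have q1 : uu / z / z⁻¹ = uu := by field_simp
  have q2 : uu / z * z⁻¹ = uu / z ^ 2 := by field_simp
  have q3 : uu / z / z = uu / z ^ 2 := by field_simp
  have q4 : uu / z * z = uu := by field_simp
  intro m
  induction m with
  | zero =>
    intro i _
    show XX e i (uu / z / z⁻¹) * 1 * XX e i (uu / z * z⁻¹) =
      ((1 + uu) ^ (2 * 0 + 1)) • (1 * (XX e i (uu / z ^ 2) * 1))
    rw [q1, q2, XX_uu]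
    simp
  | succ m ih =>
    intro i hi
    have h1 := ih (i + 2) (by omega)
    have h2 : Commute (XX e i (uu / z ^ 2)) (Lay e (uu / z ^ 2) (i + 2) (m + 1)) :=
      XX_Lay A e N h i _ _ (m + 1) (i + 2) (by omega) (by omega)
    show XX e i (uu / z / z⁻¹) * (XX e (i + 1) (uu / z / z) * BB e (uu / z) (i + 2) (z⁻¹ :: alt z m)
        * XX e (i + 1) (uu / z * z)) * XX e i (uu / z * z⁻¹) =
      ((1 + uu) ^ (2 * (m + 1) + 1)) •
        ((XX e (i + 1) (uu / z ^ 2) * Lay e (uu / z ^ 2) (i + 1 + 2) m) *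
          (XX e i (uu / z ^ 2) * Lay e (uu / z ^ 2) (i + 2) (m + 1)))
    rw [q1, q2, q3, q4, h1, XX_uu, XX_uu]
    rw [show i + 2 + 1 = i + 1 + 2 by omega]
    rw [h2.eq]
    simp only [smul_mul_assoc, mul_smul_comm, one_mul, mul_one, smul_smul]
    congr 1
    · ring
    · simp only [mul_assoc]

theorem cl_special' : S_special := by
  intro A _ _ e n hn h z hz
  have q3 : uu / z / z = uu / z ^ 2 := by field_simp
  have q4 : uu / z * z = uu := by field_simp
  obtain ⟨m, rfl⟩ : ∃ m, n = m + 1 := ⟨n - 1, by omega⟩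
  have h1 := BB_special A e _ h z hz m 0 (by omega)
  have ht : tau (uu / z) z = 0 := by
    unfold tau
    rw [q4, wT_uu, mul_zero]
  have hp : ph1 (uu / z) z = (1 + uu / z ^ 2) * (1 + uu) := by
    unfold ph1
    rw [q3, q4]
  show (ph1 (uu / z) z - tau (uu / z) z) • BB e (uu / z) 0 (z⁻¹ :: alt z m)
    + tau (uu / z) z • DD e (uu / z) (0 + 1) (z⁻¹ :: alt z m) = _
  rw [ht, zero_smul, add_zero, sub_zero, hp, h1, smul_smul, Nat.add_sub_cancel, zero_add]
  congr 1
  ring

theorem cl_special (_ : S_comm) : S_special := cl_special'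

end W96CL
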